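import Pool.Agent.Q270.EH.Fin
import Pool.Agent.U345.Ind4

/-!
Library U488.CW (helper488), part 1: the theorem of helper345 (formerly the hand-in MP_a14ce1_nt.CoinsAndWindows):
Liouville values along Beatty sequences are fair coins, independent of all products of consecutive values in other
windows. The text is the one of helper345; only the names of the namespace and of the theorem have changed.
-/

set_option autoImplicit false

namespace Pool.Agent.U488.CW

open Finset

/-- the Liouville function, with the values `±1` (the units of `ℤ`) -/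
def liouville (n : ℕ) : ℤˣ := (-1) ^ ArithmeticFunction.cardFactors n

/-- multiplicative functions with the values `±1`; `g 0` is arbitrary -/
def SignMul (g : ℕ → ℤˣ) : Prop := g 1 = 1 ∧ ∀ m n : ℕ, Nat.Coprime m n → g (m * n) = g m * g n

/-- the product of `k` consecutive values -/
def consecutive (g : ℕ → ℤˣ) (k n : ℕ) : ℤˣ := ∏ i ∈ range k, g (n + i)

/-- the point `⌊a n + b⌋` -/
noncomputable def point (a b : ℝ) (n : ℕ) : ℕ := ⌊a * (n : ℝ) + b⌋₊

open Classical in
/-- the proportion of the `n ≤ N` with the property `E` -/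
noncomputable def frequency (N : ℕ) (E : ℕ → Prop) : ℝ := (((Icc 1 N).filter E).card : ℝ) / N

open Classical in
/-- the indicator of a property -/
noncomputable def ind (p : Prop) : ℂ := if p then 1 else 0

lemma ind_true {p : Prop} (h : p) : ind p = 1 := if_pos h

lemma ind_false {p : Prop} (h : ¬ p) : ind p = 0 := if_neg h

lemma frequency_eq (N : ℕ) (E : ℕ → Prop) : ((frequency N E : ℝ) : ℂ) = (1 / (N : ℂ)) * ∑ n ∈ Icc 1 N, ind (E n) := by
  classical
  unfold frequency ind
  rw [← sum_filter, sum_const, nsmul_eq_mul, mul_one]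
  push_cast
  rw [one_div, mul_comm, div_eq_mul_inv]

lemma cast_inj {u v : ℤˣ} : (((u : ℤ) : ℂ)) = ((v : ℤ) : ℂ) ↔ u = v := by
  rw [Int.cast_inj, Units.val_inj]

lemma norm_cast_unit (u : ℤˣ) : ‖(((u : ℤ)) : ℂ)‖ = 1 := by
  rcases Int.units_eq_one_or u with h | h <;> rw [h] <;> simp

lemma norm_sub_unit {u v : ℤˣ} (h : u ≠ v) : ‖(((u : ℤ)) : ℂ) - ((v : ℤ) : ℂ)‖ = 2 := by
  rcases Int.units_eq_one_or u with h1 | h1 <;> rcases Int.units_eq_one_or v with h2 | h2 <;> rw [h1, h2] at h ⊢
  · exact absurd rfl h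
  · norm_num
  · norm_num
  · exact absurd rfl h

lemma bmul_sign {g : ℕ → ℤˣ} (hg : SignMul g) : U345I.BMul fun n => ((g n : ℤ) : ℂ) := by
  refine ⟨fun n => (norm_cast_unit _).le, ?_, fun m n hmn => ?_⟩
  · beta_reduce
    rw [hg.1]
    simp
  · beta_reduce
    rw [hg.2 m n hmn]
    push_cast
    ring

lemma signMul_liouville : SignMul liouville := by
  refine ⟨by simp [liouville], fun m n hmn => ?_⟩
  unfold liouville
  rcases Nat.eq_zero_or_pos m with rfl | hm0
  · rw [Nat.coprime_zero_left] at hmn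
    subst hmn
    simp
  rcases Nat.eq_zero_or_pos n with rfl | hn0
  · rw [Nat.coprime_zero_right] at hmn
    subst hmn
    simp
  rw [ArithmeticFunction.cardFactors_mul hm0.ne' hn0.ne', pow_add]

lemma coin_liouville : U345I.Coin fun n => ((liouville n : ℤ) : ℂ) := by
  refine ⟨bmul_sign signMul_liouville, fun n => ?_⟩
  beta_reduce
  rcases Int.units_eq_one_or (liouville n) with h | h
  · exact Or.inl (by rw [h]; simp)
  · exact Or.inr (Or.inl (by rw [h]; simp))

lemma fok : Pool.Agent.Q270.EH.Fok fun n => ((liouville n : ℤ) : ℂ) := by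
  have h : (fun n => ((liouville n : ℤ) : ℂ)) = fun n => (-1 : ℂ) ^ ArithmeticFunction.cardFactors n := by
    funext n
    unfold liouville
    push_cast
    rfl
  rw [h]
  exact Pool.Agent.Q270.EH.fok_lam

/-- the values in a window from the products -/
def step (c : ℕ → ℤˣ) (l : ℕ) : ℤˣ := (if l = 0 then 1 else c l) * c (l + 1)

lemma window_iff (g : ℕ → ℤˣ) (c : ℕ → ℤˣ) (h y : ℕ) :
    (∀ k ∈ Icc 1 h, consecutive g k y = c k) ↔ ∀ l < h, g (y + l) = step c l := by
  have hsq : ∀ u : ℤˣ, u * u = 1 := fun u => by rw [← sq, Int.units_sq]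
  constructor
  · intro H l hl
    have h1 := H (l + 1) (mem_Icc.2 ⟨by lia, by lia⟩)
    unfold consecutive at h1
    rw [prod_range_succ] at h1
    unfold step
    rcases Nat.eq_zero_or_pos l with rfl | hl0
    · rw [if_pos rfl, one_mul, ← h1]
      simp
    · have h2 := H l (mem_Icc.2 ⟨hl0, by lia⟩)
      unfold consecutive at h2
      rw [if_neg hl0.ne', ← h1, h2, ← mul_assoc, hsq, one_mul]
  · intro H k hk
    obtain ⟨hk1, hk2⟩ := mem_Icc.1 hk
    induction k with
    | zero => exact absurd hk1 (by lia)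
    | succ k ih =>
      unfold consecutive
      rw [prod_range_succ, H k (by lia)]
      unfold step
      rcases Nat.eq_zero_or_pos k with rfl | hk0
      · simp
      · have h2 := ih (mem_Icc.2 ⟨hk0, by lia⟩) hk0 (by lia)
        unfold consecutive at h2
        rw [if_neg hk0.ne', h2, ← mul_assoc, hsq, one_mul]

/-- the test function -/
noncomputable def test {κ : Type} [Fintype κ] (t z : κ → ℂ) : ℂ := ((max 0 (1 - ‖z - t‖) : ℝ) : ℂ)

lemma test_lip {κ : Type} [Fintype κ] (t : κ → ℂ) : LipschitzOnWith 1 (test t) (U345I.Disc κ) := by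
  refine LipschitzOnWith.of_dist_le_mul fun z _ w _ => ?_
  rw [NNReal.coe_one, one_mul, dist_eq_norm, dist_eq_norm]
  unfold test
  rw [← Complex.ofReal_sub, Complex.norm_real, Real.norm_eq_abs]
  refine (abs_max_sub_max_le_max _ _ _ _).trans ?_
  rw [sub_self, abs_zero, max_le_iff]
  refine ⟨norm_nonneg _, ?_⟩
  rw [show (1 - ‖z - t‖) - (1 - ‖w - t‖) = ‖w - t‖ - ‖z - t‖ by ring]
  refine (abs_norm_sub_norm_le _ _).trans (le_of_eq ?_)
  rw [sub_sub_sub_cancel_right, norm_sub_rev]

lemma test_le {κ : Type} [Fintype κ] (t z : κ → ℂ) : ‖test t z‖ ≤ 1 := by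
  unfold test
  rw [Complex.norm_real, Real.norm_eq_abs, abs_of_nonneg (le_max_left _ _), max_le_iff]
  exact ⟨zero_le_one, by linarith [norm_nonneg (z - t)]⟩

lemma test_units {κ : Type} [Fintype κ] (t z : κ → ℤˣ) :
    test (fun i => ((t i : ℤ) : ℂ)) (fun i => ((z i : ℤ) : ℂ)) = ind (z = t) := by
  unfold test
  by_cases h : z = t
  · rw [ind_true h, h, sub_self, norm_zero]
    simp
  · rw [ind_false h]
    obtain ⟨i, hi⟩ := Function.ne_iff.1 h
    have h1 : (2 : ℝ) ≤ ‖(fun i => ((z i : ℤ) : ℂ)) - fun i => ((t i : ℤ) : ℂ)‖ := by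
      rw [← norm_sub_unit hi]
      exact norm_le_pi_norm ((fun i => ((z i : ℤ) : ℂ)) - fun i => ((t i : ℤ) : ℂ)) i
    rw [max_eq_left (by linarith)]
    simp

lemma sum_flip {r k : ℕ} (t z : Fin r ⊕ Fin k → ℤˣ) :
    ∑ σ : Fin r → ℤˣ, test (fun x => ((t x : ℤ) : ℂ)) (U345I.flip σ fun x => ((z x : ℤ) : ℂ)) =
      ind (∀ q, z (Sum.inr q) = t (Sum.inr q)) := by
  have hsq : ∀ u : ℤˣ, u * u = 1 := fun u => by rw [← sq, Int.units_sq]
  have h1 : ∀ σ : Fin r → ℤˣ, test (fun x => ((t x : ℤ) : ℂ)) (U345I.flip σ fun x => ((z x : ℤ) : ℂ)) =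
      ind ((Sum.elim (fun i => σ i * z (Sum.inl i)) fun q => z (Sum.inr q)) = t) := by
    intro σ
    rw [← test_units]
    congr 1
    funext x
    rcases x with i | q
    · show ((σ i : ℤ) : ℂ) * ((z (Sum.inl i) : ℤ) : ℂ) = (((σ i * z (Sum.inl i) : ℤˣ) : ℤ) : ℂ)
      push_cast
      rfl
    · rfl
  rw [sum_congr rfl fun σ _ => h1 σ]
  by_cases h : ∀ q, z (Sum.inr q) = t (Sum.inr q)
  · rw [ind_true h, sum_eq_single fun i => t (Sum.inl i) * z (Sum.inl i)]
    · rw [ind_true]
      funext x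
      rcases x with i | q
      · show t (Sum.inl i) * z (Sum.inl i) * z (Sum.inl i) = t (Sum.inl i)
        rw [mul_assoc, hsq, mul_one]
      · exact h q
    · intro σ _ hσ
      rw [ind_false]
      intro h2
      apply hσ
      funext i
      have h3 := congrFun h2 (Sum.inl i)
      have h4 : σ i * z (Sum.inl i) = t (Sum.inl i) := h3
      rw [← h4, mul_assoc, hsq, mul_one]
    · intro h2
      exact absurd (mem_univ _) h2
  · rw [ind_false h]
    refine sum_eq_zero fun σ _ => ind_false fun h2 => h fun q => ?_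
    exact congrFun h2 (Sum.inr q)

/-- the slopes of all points different from the coin number `i` -/
def others {r s : ℕ} (α : Fin r → ℝ) (a : Fin s → ℝ) (i : Fin r) : Set ℝ := α '' {i}ᶜ ∪ Set.range a

/-- **Theorem.** Let `α_i, a_j > 0`, `β_i` real and `b_j ≥ 0`. Suppose that for every `i` the number `α_i` is not in the rational span of
`1`, the other `α_i'` and the `a_j`; or that `α_i = 1`, `β_i = 0` and `1` is not in the rational span of the other `α_i'` and the
`a_j`. Let `h` be a natural number and `ε > 0`. Then for all large `X`, uniformly for all multiplicative functions `g_1, …, g_s` with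
the values `±1`, all signs `e_i` and all signs `c_jk`, the sum over the scales `N ≤ X`, with the weights `1 / N`, of the absolute
value of the difference between the proportion of the `n ≤ N` with `λ(⌊α_i n + β_i⌋) = e_i` for all `i` and
`g_j(y_j) g_j(y_j + 1) ⋯ g_j(y_j + k - 1) = c_jk`, `y_j = ⌊a_j n + b_j⌋`, for all `j` and all `k ≤ h`, and `2^(-r)` times the
proportion of the `n ≤ N` with the second property is at most `ε log X`. -/
theorem coins_windows {r s : ℕ} (h : ℕ) (α β : Fin r → ℝ) (a b : Fin s → ℝ) (hα : ∀ i, 0 < α i) (ha : ∀ j, 0 < a j)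
    (hb : ∀ j, 0 ≤ b j) (hind : ∀ i, α i ∉ Submodule.span ℚ (insert (1 : ℝ) (others α a i)) ∨
      (α i = 1 ∧ β i = 0 ∧ (1 : ℝ) ∉ Submodule.span ℚ (others α a i))) (ε : ℝ) (hε : 0 < ε) :
    ∃ X₀ : ℕ, ∀ X : ℕ, X₀ ≤ X → ∀ g : Fin s → ℕ → ℤˣ, (∀ j, SignMul (g j)) →
      ∀ (e : Fin r → ℤˣ) (c : Fin s → ℕ → ℤˣ),
        ∑ N ∈ Icc 1 X, (1 / (N : ℝ)) *
          |frequency N (fun n => (∀ i, liouville (point (α i) (β i) n) = e i) ∧
              ∀ j, ∀ k ∈ Icc 1 h, consecutive (g j) k (point (a j) (b j) n) = c j k) -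
            1 / 2 ^ r * frequency N (fun n => ∀ j, ∀ k ∈ Icc 1 h, consecutive (g j) k (point (a j) (b j) n) = c j k)| ≤
          ε * Real.log X := by
  let jj : Fin (s * h) → Fin s := fun q => (finProdFinEquiv.symm q).1
  let ll : Fin (s * h) → Fin h := fun q => (finProdFinEquiv.symm q).2
  let B : Fin (s * h) → ℕ → ℕ := fun q n => point (a (jj q)) (b (jj q) + ((ll q : ℕ) : ℝ)) n
  have H : ∀ i₀ : Fin r, U345I.Small fun (G : {i // i ≠ i₀} ⊕ Fin (s * h) → {g : ℕ → ℂ // U345I.BMul g}) _ n =>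
      ((liouville (point (α i₀) (β i₀) n) : ℤ) : ℂ) * ∏ x, (G x).1
        (Sum.elim (fun i : {i // i ≠ i₀} => fun n => point (α i.1) (β i.1) n) B x n) := by
    intro i₀ ε hε
    let a' : {i // i ≠ i₀} ⊕ Fin (s * h) → ℝ := Sum.elim (fun i => α i.1) fun q => a (jj q)
    let b' : {i // i ≠ i₀} ⊕ Fin (s * h) → ℝ := Sum.elim (fun i => β i.1) fun q => b (jj q) + ((ll q : ℕ) : ℝ)
    have ha' : ∀ x, 0 < a' x := by
      rintro (i | q)
      · exact hα i.1
      · exact ha _
    have hsub : Set.range a' ⊆ others α a i₀ := by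
      rintro _ ⟨(i | q), rfl⟩
      · exact Or.inl ⟨i.1, i.2, rfl⟩
      · exact Or.inr ⟨jj q, rfl⟩
    have hpt : ∀ x n, Sum.elim (fun i : {i // i ≠ i₀} => fun n => point (α i.1) (β i.1) n) B x n = ⌊a' x * (n : ℝ) + b' x⌋₊ := by
      rintro (i | q) n
      · rfl
      · rfl
    rcases hind i₀ with h1 | ⟨h1, h2, h3⟩
    · obtain ⟨X₀, hX₀⟩ := Pool.Agent.Q270.EH.mainB' _ fok (α i₀) (β i₀) a' b' (hα i₀) ha'
        (fun h2 => h1 (Submodule.span_mono (Set.insert_subset_insert hsub) h2)) ε hε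
      refine ⟨X₀, fun X hX G => ?_⟩
      refine le_trans (le_of_eq ?_) (hX₀ X hX (fun x => (G x).1) fun x => (G x).2)
      unfold U345I.S
      refine sum_congr rfl fun N _ => ?_
      congr 3
      refine sum_congr rfl fun n _ => ?_
      beta_reduce
      rw [prod_congr rfl fun x _ => by rw [hpt]]
      rfl
    · obtain ⟨X₀, hX₀⟩ := Pool.Agent.Q270.EH.mainA' _ fok a' b' ha'
        (fun h2 => h3 (Submodule.span_mono hsub h2)) ε hε
      refine ⟨X₀, fun X hX G => ?_⟩
      refine le_trans (le_of_eq ?_) (hX₀ X hX (fun x => (G x).1) fun x => (G x).2)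
      unfold U345I.S
      refine sum_congr rfl fun N _ => ?_
      congr 3
      refine sum_congr rfl fun n _ => ?_
      beta_reduce
      rw [prod_congr rfl fun x _ => by rw [hpt]]
      have h4 : point (α i₀) (β i₀) n = n := by
        unfold point
        rw [h1, h2, one_mul, add_zero, Nat.floor_natCast]
      rw [h4]
  obtain ⟨X₀, hX₀⟩ := U345I.coins (r := r) (k := s * h) (fun _ n => ((liouville n : ℤ) : ℂ)) (fun _ => coin_liouville)
    (fun i n => point (α i) (β i) n) B H 1 ε hε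
  refine ⟨X₀, fun X hX g hg e c => ?_⟩
  let t : Fin r ⊕ Fin (s * h) → ℤˣ := Sum.elim e fun q => step (c (jj q)) (ll q)
  refine le_trans (le_of_eq ?_) (hX₀ X hX (fun q => ⟨fun n => ((g (jj q) n : ℤ) : ℂ), bmul_sign (hg _)⟩,
    ⟨test fun x => ((t x : ℤ) : ℂ), test_lip _, fun z _ => test_le _ z⟩))
  unfold U345I.S
  refine sum_congr rfl fun N hN => ?_
  have hN0 : (N : ℂ) ≠ 0 := by
    have := (mem_Icc.1 hN).1
    exact_mod_cast (show N ≠ 0 by lia)
  congr 1
  let z : ℕ → Fin r ⊕ Fin (s * h) → ℤˣ := fun n => Sum.elim (fun i => liouville (point (α i) (β i) n)) fun q => g (jj q) (B q n)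
  have hz : ∀ n, (Sum.elim (fun i : Fin r => ((liouville (point (α i) (β i) n) : ℤ) : ℂ)) fun q => ((g (jj q) (B q n) : ℤ) : ℂ)) =
      fun x => ((z n x : ℤ) : ℂ) := by
    intro n
    funext x
    rcases x with i | q <;> rfl
  have hw : ∀ n, (∀ q, z n (Sum.inr q) = t (Sum.inr q)) ↔
      ∀ j, ∀ k ∈ Icc 1 h, consecutive (g j) k (point (a j) (b j) n) = c j k := by
    intro n
    have hB : ∀ q, B q n = point (a (jj q)) (b (jj q)) n + ll q := by
      intro q
      show ⌊a (jj q) * (n : ℝ) + (b (jj q) + ((ll q : ℕ) : ℝ))⌋₊ = ⌊a (jj q) * (n : ℝ) + b (jj q)⌋₊ + ll q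
      rw [← add_assoc, Nat.floor_add_natCast]
      have := ha (jj q)
      have := hb (jj q)
      positivity
    constructor
    · intro h1 j
      rw [window_iff]
      intro l hl
      have h2 := h1 (finProdFinEquiv (j, ⟨l, hl⟩))
      have h3 : g (jj (finProdFinEquiv (j, ⟨l, hl⟩))) (B (finProdFinEquiv (j, ⟨l, hl⟩)) n) =
        step (c (jj (finProdFinEquiv (j, ⟨l, hl⟩)))) (ll (finProdFinEquiv (j, ⟨l, hl⟩))) := h2
      rw [hB] at h3
      have h4 : finProdFinEquiv.symm (finProdFinEquiv (j, (⟨l, hl⟩ : Fin h))) = (j, ⟨l, hl⟩) := Equiv.symm_apply_apply _ _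
      have h5 : jj (finProdFinEquiv (j, ⟨l, hl⟩)) = j := congrArg Prod.fst h4
      have h6 : ll (finProdFinEquiv (j, ⟨l, hl⟩)) = ⟨l, hl⟩ := congrArg Prod.snd h4
      rw [h5, h6] at h3
      exact h3
    · intro h1 q
      show g (jj q) (B q n) = step (c (jj q)) (ll q)
      rw [hB]
      exact (window_iff _ _ _ _).1 (h1 (jj q)) (ll q) (ll q).2
  have hall : ∀ n, z n = t ↔ (∀ i, liouville (point (α i) (β i) n) = e i) ∧
      ∀ j, ∀ k ∈ Icc 1 h, consecutive (g j) k (point (a j) (b j) n) = c j k := by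
    intro n
    rw [← hw n]
    constructor
    · intro h1
      exact ⟨fun i => congrFun h1 (Sum.inl i), fun q => congrFun h1 (Sum.inr q)⟩
    · rintro ⟨h1, h2⟩
      funext x
      rcases x with i | q
      · exact h1 i
      · exact h2 q
  have hTT : ∀ n, U345I.TT r (s * h) (test fun x => ((t x : ℤ) : ℂ))
      (Sum.elim (fun i : Fin r => ((liouville (point (α i) (β i) n) : ℤ) : ℂ)) fun q => ((g (jj q) (B q n) : ℤ) : ℂ)) =
      ind ((∀ i, liouville (point (α i) (β i) n) = e i) ∧
        ∀ j, ∀ k ∈ Icc 1 h, consecutive (g j) k (point (a j) (b j) n) = c j k) - (1 / 2 ^ r) *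
          ind (∀ j, ∀ k ∈ Icc 1 h, consecutive (g j) k (point (a j) (b j) n) = c j k) := by
    intro n
    rw [hz, U345I.TT_apply, test_units, sum_flip, propext (hw n), propext (hall n)]
  rw [← Real.norm_eq_abs, ← Complex.norm_real]
  congr 1
  refine Eq.trans ?_ (congrArg (fun x => (1 / (N : ℂ)) * x) (sum_congr rfl fun n _ => hTT n).symm)
  rw [sum_sub_distrib, ← mul_sum, Complex.ofReal_sub, Complex.ofReal_mul, frequency_eq, frequency_eq]
  push_cast
  ring

end Pool.Agent.U488.CW
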