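import Pool.Agent.U488.CW.Joint

/-!
Library U488.CW (helper488), part 4: functions of the values in the integer windows; pairs; products of consecutive
values on the coin events.
-/

set_option autoImplicit false

namespace Pool.Agent.U488.CW

open Finset Filter
open Pool.Agent.Y958.U (LZ)
open Pool.Agent.Y842.EL (LZ_mono LZ_union LZ_diag' LZ_eps one_set)
open Pool.Agent.H376R2.MR (lam)

/-- the property of the exceptional set -/
def Joint {r : ℕ} (α β : Fin r → ℝ) (E : Set ℕ) : Prop :=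
  ∀ (s : ℕ) (a b : Fin s → ℕ), (∀ j, 1 ≤ a j) → ∀ (e : Fin r → ℤˣ) (c : Fin s → ℤˣ) (ε : ℝ),
      0 < ε → ∃ N₀ : ℕ, ∀ N : ℕ, N₀ ≤ N → N ∉ E →
        |frequency N (fun n => Coins α β e n ∧ pat a b n = c) - 1 / 2 ^ r * frequency N (fun n => pat a b n = c)| ≤ ε

lemma freq_sum (N : ℕ) (hN : 1 ≤ N) (P : ℕ → Prop) [DecidablePred P] :
    ∑ n ∈ Icc 1 N, (if P n then (1 : ℝ) else 0) = N * frequency N P := by
  have hN0 : (N : ℝ) ≠ 0 := by
    have : N ≠ 0 := by omega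
    exact_mod_cast this
  unfold frequency
  rw [← sum_filter, sum_const, nsmul_eq_mul, mul_one, mul_div_cancel₀ _ hN0]
  congr!

open Classical in
/-- functions of the pattern -/
theorem fun_joint {r : ℕ} {α β : Fin r → ℝ} {E : Set ℕ} (hE : Joint α β E) (s : ℕ) (a b : Fin s → ℕ)
    (ha : ∀ j, 1 ≤ a j) (e : Fin r → ℤˣ) (G : (Fin s → ℤˣ) → ℝ) (hG : ∀ c, |G c| ≤ 1) (ε : ℝ) (hε : 0 < ε) :
    ∃ N₀ : ℕ, ∀ N : ℕ, N₀ ≤ N → N ∉ E →
      |∑ n ∈ Icc 1 N, (if Coins α β e n then G (pat a b n) else 0) - 1 / 2 ^ r * ∑ n ∈ Icc 1 N, G (pat a b n)| ≤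
        ε * N := by
  have hK : (0 : ℝ) < ((Fintype.card (Fin s → ℤˣ) : ℕ) : ℝ) := by exact_mod_cast Fintype.card_pos
  set K : ℝ := ((Fintype.card (Fin s → ℤˣ) : ℕ) : ℝ) with hKd
  choose M hM using fun c : Fin s → ℤˣ => hE s a b ha e c (ε / K) (by positivity)
  refine ⟨∑ c, M c + 1, fun N hN hNE => ?_⟩
  have hN1 : 1 ≤ N := by omega
  have hN0 : (0 : ℝ) < N := by exact_mod_cast hN1
  have h1 : ∀ c, |frequency N (fun n => Coins α β e n ∧ pat a b n = c) -
      1 / 2 ^ r * frequency N (fun n => pat a b n = c)| ≤ ε / K := by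
    intro c
    refine hM c N ?_ hNE
    have := single_le_sum (f := M) (fun _ _ => Nat.zero_le _) (mem_univ c)
    omega
  have h2 : ∀ n, (if Coins α β e n then G (pat a b n) else 0) =
      ∑ c, G c * (if Coins α β e n ∧ pat a b n = c then (1 : ℝ) else 0) := by
    intro n
    rw [sum_eq_single (pat a b n)]
    · by_cases h : Coins α β e n
      · rw [if_pos h, if_pos ⟨h, rfl⟩, mul_one]
      · rw [if_neg h, if_neg (fun h' => h h'.1), mul_zero]
    · intro c _ hc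
      rw [if_neg (fun h' => hc h'.2.symm), mul_zero]
    · intro h
      exact absurd (mem_univ _) h
  have h3 : ∀ n, G (pat a b n) = ∑ c, G c * (if pat a b n = c then (1 : ℝ) else 0) := by
    intro n
    rw [sum_eq_single (pat a b n)]
    · rw [if_pos rfl, mul_one]
    · intro c _ hc
      rw [if_neg (fun h' => hc h'.symm), mul_zero]
    · intro h
      exact absurd (mem_univ _) h
  rw [sum_congr rfl fun n _ => h2 n, sum_congr rfl fun n _ => h3 n, sum_comm,
    sum_comm (s := Icc 1 N) (t := (univ : Finset (Fin s → ℤˣ))), mul_sum, ← sum_sub_distrib]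
  have h4 : ∀ c ∈ (univ : Finset (Fin s → ℤˣ)),
      |∑ n ∈ Icc 1 N, G c * (if Coins α β e n ∧ pat a b n = c then (1 : ℝ) else 0) -
        1 / 2 ^ r * ∑ n ∈ Icc 1 N, G c * (if pat a b n = c then (1 : ℝ) else 0)| ≤ ε / K * N := by
    intro c _
    rw [← mul_sum, ← mul_sum, freq_sum N hN1 (fun n => Coins α β e n ∧ pat a b n = c),
      freq_sum N hN1 (fun n => pat a b n = c)]
    have h5 : G c * (N * frequency N (fun n => Coins α β e n ∧ pat a b n = c)) -
        1 / 2 ^ r * (G c * (N * frequency N (fun n => pat a b n = c))) =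
        G c * (N * (frequency N (fun n => Coins α β e n ∧ pat a b n = c) -
          1 / 2 ^ r * frequency N (fun n => pat a b n = c))) := by ring
    rw [h5, abs_mul, abs_mul, abs_of_pos hN0]
    calc |G c| * (N * |frequency N (fun n => Coins α β e n ∧ pat a b n = c) -
          1 / 2 ^ r * frequency N (fun n => pat a b n = c)|) ≤ 1 * (N * (ε / K)) :=
          mul_le_mul (hG c) (mul_le_mul_of_nonneg_left (h1 c) hN0.le) (by positivity) (by norm_num)
      _ = ε / K * N := by ring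
  refine (abs_sum_le_sum_abs _ _).trans ((sum_le_sum h4).trans (le_of_eq ?_))
  rw [sum_const, card_univ, nsmul_eq_mul, ← hKd]
  field_simp

lemma lio_lam (n : ℕ) : (((liouville n : ℤˣ) : ℤ) : ℝ) = (lam n : ℝ) := by
  unfold liouville lam
  push_cast
  rfl

/-- the indicator of a sign -/
noncomputable def hs (u v : ℤˣ) : ℝ := (1 + ((u : ℤ) : ℝ) * ((v : ℤ) : ℝ)) / 2

lemma hs_eq (u v : ℤˣ) : hs u v = if v = u then 1 else 0 := by
  unfold hs
  rcases Int.units_eq_one_or u with rfl | rfl <;> rcases Int.units_eq_one_or v with rfl | rfl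
  · rw [if_pos rfl]; norm_num
  · rw [if_neg (by decide)]; norm_num
  · rw [if_neg (by decide)]; norm_num
  · rw [if_pos rfl]; norm_num

/-- sums over `1, …, N` from sums over `range` -/
lemma sum_Icc_range (f : ℕ → ℝ) (N : ℕ) : ∑ n ∈ Icc 1 N, f n = ∑ n ∈ range N, f (n + 1) := by
  rw [← Finset.sum_image (s := range N) (g := fun n => n + 1) (f := f)]
  · congr 1
    ext m
    rw [mem_Icc, mem_image]
    constructor
    · rintro ⟨h1, h2⟩
      exact ⟨m - 1, mem_range.2 (by omega), by omega⟩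
    · rintro ⟨n, hn, rfl⟩
      rw [mem_range] at hn
      omega
  · intro a _ b _ h
    have : a + 1 = b + 1 := h
    omega

lemma form' {F : Set ℕ} (hF : Exc F) (a b : ℕ) (ha : 1 ≤ a) (ε : ℝ) (hε : 0 < ε) :
    ∃ N₀ : ℕ, ∀ N : ℕ, N₀ ≤ N → N ∉ F → |∑ n ∈ Icc 1 N, (lam (a * n + b) : ℝ)| ≤ ε * N := by
  obtain ⟨N₀, h⟩ := form hF a (a + b) ha (by omega) ε hε
  refine ⟨N₀, fun N hN hNF => ?_⟩
  have h1 := h N hN hNF
  rw [sum_Icc_range]
  have e : ∀ n, a * (n + 1) + b = a * n + (a + b) := fun n => by ring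
  rw [sum_congr rfl fun n _ => by rw [e n]]
  exact h1

lemma forms' {F : Set ℕ} (hF : Exc F) (a b a' b' : ℕ) (ha : 1 ≤ a) (ha' : 1 ≤ a') (hne : a * b' ≠ a' * b) (ε : ℝ)
    (hε : 0 < ε) : ∃ N₀ : ℕ, ∀ N : ℕ, N₀ ≤ N → N ∉ F →
      |∑ n ∈ Icc 1 N, (lam (a * n + b) : ℝ) * lam (a' * n + b')| ≤ ε * N := by
  obtain ⟨N₀, h⟩ := forms hF a (a + b) a' (a' + b') ha ha' (by omega) (by omega) (by
    intro h
    have h1 : a * (a' + b') = a * a' + a * b' := by ring
    have h2 : a' * (a + b) = a * a' + a' * b := by ring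
    omega) ε hε
  refine ⟨N₀, fun N hN hNF => ?_⟩
  have h1 := h N hN hNF
  rw [sum_Icc_range]
  have e : ∀ n, a * (n + 1) + b = a * n + (a + b) := fun n => by ring
  have e' : ∀ n, a' * (n + 1) + b' = a' * n + (a' + b') := fun n => by ring
  rw [sum_congr rfl fun n _ => by rw [e n, e' n]]
  exact h1

/-- the pattern of a pair of integer forms -/
theorem pair_freq {F : Set ℕ} (hF : Exc F) (a b a' b' : ℕ) (ha : 1 ≤ a) (ha' : 1 ≤ a') (hne : a * b' ≠ a' * b)
    (u v : ℤˣ) (ε : ℝ) (hε : 0 < ε) : ∃ N₀ : ℕ, ∀ N : ℕ, N₀ ≤ N → N ∉ F →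
      |∑ n ∈ Icc 1 N, hs u (liouville (a * n + b)) * hs v (liouville (a' * n + b')) - N / 4| ≤ ε * N := by
  obtain ⟨M₁, h1⟩ := form' hF a b ha ε hε
  obtain ⟨M₂, h2⟩ := form' hF a' b' ha' ε hε
  obtain ⟨M₃, h3⟩ := forms' hF a b a' b' ha ha' hne ε hε
  refine ⟨M₁ + M₂ + M₃, fun N hN hNF => ?_⟩
  have h4 := h1 N (by omega) hNF
  have h5 := h2 N (by omega) hNF
  have h6 := h3 N (by omega) hNF
  have h7 : ∀ n, hs u (liouville (a * n + b)) * hs v (liouville (a' * n + b')) =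
      1 / 4 + ((u : ℤ) : ℝ) / 4 * lam (a * n + b) + ((v : ℤ) : ℝ) / 4 * lam (a' * n + b') +
        ((u : ℤ) : ℝ) * ((v : ℤ) : ℝ) / 4 * ((lam (a * n + b) : ℝ) * lam (a' * n + b')) := by
    intro n
    unfold hs
    rw [lio_lam, lio_lam]
    ring
  rw [sum_congr rfl fun n _ => h7 n, sum_add_distrib, sum_add_distrib, sum_add_distrib, ← mul_sum, ← mul_sum, ← mul_sum]
  rw [sum_const, Nat.card_Icc, nsmul_eq_mul, Nat.add_sub_cancel]
  have hu : ((u : ℤ) : ℝ) = 1 ∨ ((u : ℤ) : ℝ) = -1 := by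
    rcases Int.units_eq_one_or u with rfl | rfl
    · left; norm_num
    · right; norm_num
  have hv : ((v : ℤ) : ℝ) = 1 ∨ ((v : ℤ) : ℝ) = -1 := by
    rcases Int.units_eq_one_or v with rfl | rfl
    · left; norm_num
    · right; norm_num
  rw [abs_le] at h4 h5 h6 ⊢
  have hN0 : (0 : ℝ) ≤ ε * N := by positivity
  rcases hu with hu | hu <;> rcases hv with hv | hv <;> rw [hu, hv] <;> constructor <;> linarith [h4.1, h4.2, h5.1, h5.2, h6.1, h6.2]

open Classical in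
/-- all the sign patterns of two integer forms and the coins -/
theorem pairs_coins {r : ℕ} {α β : Fin r → ℝ} {E : Set ℕ} (hE : Joint α β E) {F : Set ℕ} (hF : Exc F) (hEF : F ⊆ E)
    (a b a' b' : ℕ) (ha : 1 ≤ a) (ha' : 1 ≤ a') (hne : a * b' ≠ a' * b) (u v : ℤˣ) (e : Fin r → ℤˣ) (ε : ℝ)
    (hε : 0 < ε) : ∃ N₀ : ℕ, ∀ N : ℕ, N₀ ≤ N → N ∉ E →
      |frequency N (fun n => liouville (a * n + b) = u ∧ liouville (a' * n + b') = v ∧ Coins α β e n) -
        1 / 2 ^ (r + 2)| ≤ ε := by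
  let A : Fin 2 → ℕ := ![a, a']
  let B : Fin 2 → ℕ := ![b, b']
  have hA : ∀ j, 1 ≤ A j := by
    intro j
    fin_cases j
    · exact ha
    · exact ha'
  obtain ⟨M₁, h1⟩ := fun_joint hE 2 A B hA e (fun c => hs u (c 0) * hs v (c 1)) (fun c => by
    rw [hs_eq, hs_eq]
    split_ifs <;> norm_num) (ε / 2) (by positivity)
  obtain ⟨M₂, h2⟩ := pair_freq hF a b a' b' ha ha' hne u v (ε / 2) (by positivity)
  refine ⟨M₁ + M₂ + 1, fun N hN hNE => ?_⟩
  have hN1 : 1 ≤ N := by omega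
  have hN0 : (0 : ℝ) < N := by exact_mod_cast hN1
  have h3 := h1 N (by omega) hNE
  have h4 := h2 N (by omega) (fun h => hNE (hEF h))
  have h5 : ∀ n, (if Coins α β e n then (fun c : Fin 2 → ℤˣ => hs u (c 0) * hs v (c 1)) (pat A B n) else 0) =
      if liouville (a * n + b) = u ∧ liouville (a' * n + b') = v ∧ Coins α β e n then (1 : ℝ) else 0 := by
    intro n
    have e0 : pat A B n 0 = liouville (a * n + b) := rfl
    have e1 : pat A B n 1 = liouville (a' * n + b') := rfl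
    beta_reduce
    rw [e0, e1, hs_eq, hs_eq]
    by_cases c1 : Coins α β e n <;> by_cases c2 : liouville (a * n + b) = u <;>
      by_cases c3 : liouville (a' * n + b') = v <;> simp [c1, c2, c3]
  rw [sum_congr rfl fun n _ => h5 n, freq_sum N hN1] at h3
  have h6 : ∀ n, (fun c : Fin 2 → ℤˣ => hs u (c 0) * hs v (c 1)) (pat A B n) =
      hs u (liouville (a * n + b)) * hs v (liouville (a' * n + b')) := fun n => rfl
  rw [sum_congr rfl fun n _ => h6 n] at h3
  have hr : (1 : ℝ) ≤ 2 ^ r := one_le_pow₀ (by norm_num)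
  have hr0 : (0 : ℝ) < 1 / 2 ^ r := by positivity
  have hr1 : (1 : ℝ) / 2 ^ r ≤ 1 := by
    rw [div_le_one (by positivity)]
    exact hr
  have h7 : |1 / 2 ^ r * (∑ n ∈ Icc 1 N, hs u (liouville (a * n + b)) * hs v (liouville (a' * n + b')) - N / 4)| ≤
      ε / 2 * N := by
    rw [abs_mul, abs_of_pos hr0]
    calc _ ≤ 1 * (ε / 2 * N) := mul_le_mul hr1 h4 (abs_nonneg _) (by norm_num)
      _ = ε / 2 * N := one_mul _
  have h8 : (N : ℝ) * |frequency N (fun n => liouville (a * n + b) = u ∧ liouville (a' * n + b') = v ∧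
      Coins α β e n) - 1 / 2 ^ (r + 2)| ≤ N * ε := by
    have e9 : (N : ℝ) * (frequency N (fun n => liouville (a * n + b) = u ∧ liouville (a' * n + b') = v ∧
        Coins α β e n) - 1 / 2 ^ (r + 2)) =
        (N * frequency N (fun n => liouville (a * n + b) = u ∧ liouville (a' * n + b') = v ∧ Coins α β e n) -
          1 / 2 ^ r * ∑ n ∈ Icc 1 N, hs u (liouville (a * n + b)) * hs v (liouville (a' * n + b'))) +
        1 / 2 ^ r * (∑ n ∈ Icc 1 N, hs u (liouville (a * n + b)) * hs v (liouville (a' * n + b')) - N / 4) := by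
      rw [pow_add]
      field_simp
      ring
    have e10 := congrArg abs e9
    rw [abs_mul, abs_of_pos hN0] at e10
    rw [e10]
    have := abs_add_le (N * frequency N (fun n => liouville (a * n + b) = u ∧ liouville (a' * n + b') = v ∧
      Coins α β e n) - 1 / 2 ^ r * ∑ n ∈ Icc 1 N, hs u (liouville (a * n + b)) * hs v (liouville (a' * n + b')))
      (1 / 2 ^ r * (∑ n ∈ Icc 1 N, hs u (liouville (a * n + b)) * hs v (liouville (a' * n + b')) - N / 4))
    linarith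
  exact le_of_mul_le_mul_left h8 hN0

/-- the product of `k` consecutive values of the Liouville function -/
noncomputable def prodL (k n : ℕ) : ℝ := ∏ i ∈ range k, (-1 : ℝ) ^ ArithmeticFunction.cardFactors (n + i)

lemma prodL_pat (k n : ℕ) : prodL k n =
    ∏ i : Fin k, (((pat (fun _ : Fin k => 1) (fun i => (i : ℕ)) n i : ℤˣ) : ℤ) : ℝ) := by
  unfold prodL pat liouville
  rw [← Fin.prod_univ_eq_prod_range (fun i => (-1 : ℝ) ^ ArithmeticFunction.cardFactors (n + i)) k]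
  refine prod_congr rfl fun i _ => ?_
  rw [one_mul]
  push_cast
  rfl

open Classical in
/-- products of consecutive values on the coin events -/
theorem prod_coins {r : ℕ} {α β : Fin r → ℝ} {E : Set ℕ} (hE : Joint α β E) (k : ℕ) (e : Fin r → ℤˣ) (ε : ℝ)
    (hε : 0 < ε) : ∃ N₀ : ℕ, ∀ N : ℕ, N₀ ≤ N → N ∉ E →
      |∑ n ∈ Icc 1 N, (if Coins α β e n then prodL k n else 0) - 1 / 2 ^ r * ∑ n ∈ Icc 1 N, prodL k n| ≤ ε * N := by
  obtain ⟨N₀, h⟩ := fun_joint hE k (fun _ => 1) (fun i => (i : ℕ)) (fun _ => le_refl 1) e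
    (fun c => ∏ i : Fin k, (((c i : ℤˣ) : ℤ) : ℝ)) (fun c => by
      rw [abs_prod]
      refine le_of_eq (prod_eq_one fun i _ => ?_)
      rcases Int.units_eq_one_or (c i) with h | h <;> rw [h] <;> norm_num) ε hε
  refine ⟨N₀, fun N hN hNE => ?_⟩
  have h1 := h N hN hNE
  have h2 : ∀ n, ∏ i : Fin k, (((pat (fun _ : Fin k => 1) (fun i => (i : ℕ)) n i : ℤˣ) : ℤ) : ℝ) = prodL k n :=
    fun n => (prodL_pat k n).symm
  simp only [h2] at h1
  exact h1

open Classical in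
/-- the sum over a coin event -/
noncomputable def coinSum {r : ℕ} (α β : Fin r → ℝ) (e : Fin r → ℤˣ) (k N : ℕ) : ℝ :=
  ∑ n ∈ (Icc 1 N).filter (Coins α β e), ∏ i ∈ range k, (-1 : ℝ) ^ ArithmeticFunction.cardFactors (n + i)

lemma prodL_abs (k n : ℕ) : |prodL k n| = 1 := by
  unfold prodL
  rw [abs_prod]
  refine prod_eq_one fun i _ => ?_
  rw [abs_pow, abs_neg, abs_one, one_pow]

lemma T_prod (k N : ℕ) : |Pool.Agent.U847.NL.T (Pool.Agent.U847.NL.cls 1 0) (Pool.Agent.U847.NL.P 1 k) N -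
    ∑ n ∈ Icc 1 N, prodL k n| ≤ 2 := by
  have h1 : Pool.Agent.U847.NL.T (Pool.Agent.U847.NL.cls 1 0) (Pool.Agent.U847.NL.P 1 k) N =
      ∑ n ∈ range N, prodL k n := by
    unfold Pool.Agent.U847.NL.T
    refine sum_congr rfl fun n _ => ?_
    unfold Pool.Agent.U847.NL.cls Pool.Agent.U847.NL.P prodL
    rw [if_pos (Nat.mod_one n), one_mul]
    refine prod_congr rfl fun i _ => ?_
    rw [mul_one]
    rfl
  have h2 : ∑ n ∈ range (N + 1), prodL k n = ∑ n ∈ range N, prodL k n + prodL k N := sum_range_succ _ _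
  have h3 : ∑ n ∈ range (N + 1), prodL k n = ∑ n ∈ range N, prodL k (n + 1) + prodL k 0 := sum_range_succ' _ _
  rw [h1, sum_Icc_range]
  have h4 : ∑ n ∈ range N, prodL k n - ∑ n ∈ range N, prodL k (n + 1) = prodL k 0 - prodL k N := by linarith
  rw [h4]
  have h5 := abs_sub (prodL k 0) (prodL k N)
  rw [prodL_abs, prodL_abs] at h5
  linarith

lemma T_one' (N : ℕ) : Pool.Agent.U847.NL.T (Pool.Agent.U847.NL.cls 1 0) (fun _ => 1) N = N := by
  unfold Pool.Agent.U847.NL.T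
  have h : ∀ n ∈ range N, Pool.Agent.U847.NL.cls 1 0 n * 1 = (1 : ℝ) := by
    intro n _
    unfold Pool.Agent.U847.NL.cls
    rw [if_pos (Nat.mod_one n), one_mul]
  rw [sum_congr rfl h]
  simp

/-- neighbouring lengths on the coin events -/
theorem two_lengths {r : ℕ} {α β : Fin r → ℝ} {E : Set ℕ} (hE : Joint α β E) {F : Set ℕ}
    (hF : Pool.Agent.R318.MU.AllExc F) (hEF : F ⊆ E) (k : ℕ) (hk : 2 ≤ k) (e : Fin r → ℤˣ) (ε : ℝ) (hε : 0 < ε) :
    ∃ N₀ : ℕ, ∀ N : ℕ, N₀ ≤ N → N ∉ E →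
      |coinSum α β e k N| + |coinSum α β e (k + 2) N| ≤ (5 / 6 + ε) * (N / 2 ^ r) := by
  classical
  have hr0 : (0 : ℝ) < 2 ^ r := by positivity
  obtain ⟨M₁, h1⟩ := prod_coins hE k e (ε / 4 / 2 ^ r) (by positivity)
  obtain ⟨M₂, h2⟩ := prod_coins hE (k + 2) e (ε / 4 / 2 ^ r) (by positivity)
  obtain ⟨M₃, h3⟩ := Pool.Agent.U847.NL.pair hF k 1 0 hk le_rfl (ε / 4) (by positivity)
  obtain ⟨M₄, hM₄⟩ := exists_nat_ge (40 / ε)
  refine ⟨M₁ + M₂ + M₃ + M₄, fun N hN hNE => ?_⟩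
  have h4 := h1 N (by omega) hNE
  have h5 := h2 N (by omega) hNE
  have h6 := h3 N (by omega) (fun h => hNE (hEF h))
  have h7 := T_prod k N
  have h8 := T_prod (k + 2) N
  rw [T_one'] at h6
  have h10 : ∀ k : ℕ, coinSum α β e k N = ∑ n ∈ Icc 1 N, (if Coins α β e n then prodL k n else 0) := by
    intro k
    unfold coinSum
    rw [sum_filter]
    rfl
  rw [h10, h10]
  have h11 : 4 ≤ ε / 4 * N := by
    have e1 : (M₄ : ℝ) ≤ N := by exact_mod_cast (by omega : M₄ ≤ N)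
    rw [div_le_iff₀ hε] at hM₄
    nlinarith
  set A := ∑ n ∈ Icc 1 N, (if Coins α β e n then prodL k n else 0) with hA
  set A' := ∑ n ∈ Icc 1 N, (if Coins α β e n then prodL (k + 2) n else 0) with hA'
  set B := ∑ n ∈ Icc 1 N, prodL k n with hB
  set B' := ∑ n ∈ Icc 1 N, prodL (k + 2) n with hB'
  set C := Pool.Agent.U847.NL.T (Pool.Agent.U847.NL.cls 1 0) (Pool.Agent.U847.NL.P 1 k) N with hC
  set C' := Pool.Agent.U847.NL.T (Pool.Agent.U847.NL.cls 1 0) (Pool.Agent.U847.NL.P 1 (k + 2)) N with hC'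
  have h12 : |B| + |B'| ≤ (5 / 6 + ε / 2) * N := by
    have e1 := abs_sub_abs_le_abs_sub B C
    have e2 := abs_sub_abs_le_abs_sub B' C'
    rw [abs_sub_comm] at e1 e2
    linarith
  have h13 : |A| ≤ 1 / 2 ^ r * |B| + ε / 4 / 2 ^ r * N := by
    have e1 := abs_sub_abs_le_abs_sub A (1 / 2 ^ r * B)
    rw [abs_mul, abs_of_pos (show (0 : ℝ) < 1 / 2 ^ r by positivity)] at e1
    linarith
  have h14 : |A'| ≤ 1 / 2 ^ r * |B'| + ε / 4 / 2 ^ r * N := by
    have e1 := abs_sub_abs_le_abs_sub A' (1 / 2 ^ r * B')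
    rw [abs_mul, abs_of_pos (show (0 : ℝ) < 1 / 2 ^ r by positivity)] at e1
    linarith
  have h15 : 1 / 2 ^ r * (|B| + |B'|) ≤ 1 / 2 ^ r * ((5 / 6 + ε / 2) * N) :=
    mul_le_mul_of_nonneg_left h12 (by positivity)
  calc |A| + |A'| ≤ 1 / 2 ^ r * (|B| + |B'|) + 2 * (ε / 4 / 2 ^ r * N) := by linarith
    _ ≤ 1 / 2 ^ r * ((5 / 6 + ε / 2) * N) + 2 * (ε / 4 / 2 ^ r * N) := by linarith
    _ = (5 / 6 + ε) * (N / 2 ^ r) := by
      field_simp
      ring

end Pool.Agent.U488.CW
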