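import Pool.Agent.Y842.EL.One

/-!
Library U488.CW (helper488), part 2: the two point theorem for the Liouville function at almost all scales, for pairs of
integer forms, and single forms.
-/

set_option autoImplicit false

namespace Pool.Agent.U488.CW

open Finset Filter
open Pool.Agent.Y958.U (LZ)
open Pool.Agent.Y842.EL (tw one_set lam_pm lam_mul_self)
open Pool.Agent.H376R2.MR (lam)

/-- the property of the exceptional set -/
def Exc (F : Set ℕ) : Prop := ∀ h q b a c : ℕ, 1 ≤ h → 1 ≤ q → 1 ≤ a → ∀ ε : ℝ, 0 < ε →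
    ∃ N₀ : ℕ, ∀ N : ℕ, N₀ ≤ N → N ∉ F → |tw h q b (a * N + c)| ≤ ε * N

lemma lamr (n : ℕ) : |(lam n : ℝ)| = 1 := by
  rcases lam_pm n with h | h <;> rw [h] <;> norm_num

lemma lamr_sq (n : ℕ) : (lam n : ℝ) * lam n = 1 := by
  rcases lam_pm n with h | h <;> rw [h] <;> norm_num

lemma lam_mul {a b : ℕ} (ha : a ≠ 0) (hb : b ≠ 0) : lam (a * b) = lam a * lam b := by
  unfold lam
  rw [ArithmeticFunction.cardFactors_mul ha hb, pow_add]

lemma class_sum (A c N : ℕ) (hA : 1 ≤ A) (f : ℕ → ℝ) :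
    ∑ m ∈ range (A * N + c), (if m % A = c % A then (1 : ℝ) else 0) * f m =
      ∑ m ∈ range c, (if m % A = c % A then (1 : ℝ) else 0) * f m + ∑ n ∈ range N, f (A * n + c) := by
  induction N with
  | zero => simp
  | succ N ih =>
    have e : A * (N + 1) + c = (A * N + c) + A := by ring
    rw [e, sum_range_add, ih, sum_range_succ, add_assoc]
    congr 2
    rw [sum_eq_single 0]
    · rw [add_zero, if_pos, one_mul]
      rw [Nat.mul_add_mod]
    · intro i hi hi0
      rw [mem_range] at hi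
      rw [if_neg, zero_mul]
      intro h
      rw [add_assoc, Nat.mul_add_mod] at h
      have h1 : c + i ≡ c + 0 [MOD A] := by rw [add_zero]; exact h
      have h2 := Nat.ModEq.add_left_cancel' c h1
      have h3 := Nat.ModEq.eq_of_lt_of_lt h2 hi (by omega)
      exact hi0 h3
    · intro h
      exact absurd (mem_range.2 (by omega)) h

theorem pair_sum {F : Set ℕ} (hF : Exc F) (A c h : ℕ) (hA : 1 ≤ A) (hh : 1 ≤ h) (ε : ℝ) (hε : 0 < ε) :
    ∃ N₀ : ℕ, ∀ N : ℕ, N₀ ≤ N → N ∉ F →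
      |∑ n ∈ range N, (lam (A * n + c) : ℝ) * lam (A * n + c + h)| ≤ ε * N := by
  obtain ⟨N₀, h1⟩ := hF h A (c % A) A c hh hA hA (ε / 2) (by positivity)
  obtain ⟨N₁, hN₁⟩ := exists_nat_gt (2 * (c : ℝ) / ε)
  refine ⟨N₀ + N₁, fun N hN hNF => ?_⟩
  have h2 := h1 N (by omega) hNF
  have h3 := class_sum A c N hA fun m => (lam m : ℝ) * lam (m + h)
  have h4 : tw h A (c % A) (A * N + c) = ∑ m ∈ range (A * N + c), (if m % A = c % A then (1 : ℝ) else 0) *
      ((lam m : ℝ) * lam (m + h)) := by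
    unfold tw
    exact sum_congr rfl fun m _ => by ring
  rw [← h4] at h3
  have h5 : |∑ m ∈ range c, (if m % A = c % A then (1 : ℝ) else 0) * ((lam m : ℝ) * lam (m + h))| ≤ c := by
    refine (abs_sum_le_sum_abs _ _).trans ((sum_le_sum (g := fun _ => (1 : ℝ)) fun m _ => ?_).trans (le_of_eq (by simp)))
    rw [abs_mul, abs_mul, lamr, lamr]
    split_ifs <;> norm_num
  have h6 : (N₁ : ℝ) ≤ N := by exact_mod_cast (by omega : N₁ ≤ N)
  rw [div_lt_iff₀ hε] at hN₁
  have h7 : (c : ℝ) ≤ ε / 2 * N := by nlinarith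
  have h8 : ∑ n ∈ range N, (lam (A * n + c) : ℝ) * lam (A * n + c + h) = tw h A (c % A) (A * N + c) -
      ∑ m ∈ range c, (if m % A = c % A then (1 : ℝ) else 0) * ((lam m : ℝ) * lam (m + h)) := by linarith
  rw [h8]
  have h9 := abs_sub (tw h A (c % A) (A * N + c))
    (∑ m ∈ range c, (if m % A = c % A then (1 : ℝ) else 0) * ((lam m : ℝ) * lam (m + h)))
  linarith

/-- two integer forms which are not proportional -/
theorem forms {F : Set ℕ} (hF : Exc F) (a b a' b' : ℕ) (ha : 1 ≤ a) (ha' : 1 ≤ a') (hb : 1 ≤ b) (hb' : 1 ≤ b')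
    (hne : a * b' ≠ a' * b) (ε : ℝ) (hε : 0 < ε) : ∃ N₀ : ℕ, ∀ N : ℕ, N₀ ≤ N → N ∉ F →
      |∑ n ∈ range N, (lam (a * n + b) : ℝ) * lam (a' * n + b')| ≤ ε * N := by
  wlog hlt : a' * b < a * b' generalizing a b a' b' with H
  · obtain ⟨N₀, h1⟩ := H a' b' a b ha' ha hb' hb (Ne.symm hne) (by omega)
    refine ⟨N₀, fun N hN hNF => ?_⟩
    rw [sum_congr rfl fun n _ => mul_comm (lam (a * n + b) : ℝ) _]
    exact h1 N hN hNF
  obtain ⟨N₀, h1⟩ := pair_sum hF (a * a') (a' * b) (a * b' - a' * b) (Nat.mul_pos ha ha') (by omega) ε hε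
  refine ⟨N₀, fun N hN hNF => ?_⟩
  have h2 := h1 N hN hNF
  have h3 : ∀ n : ℕ, (lam (a * a' * n + a' * b) : ℝ) * lam (a * a' * n + a' * b + (a * b' - a' * b)) =
      (lam a * lam a' : ℝ) * (lam (a * n + b) * lam (a' * n + b')) := by
    intro n
    have e1 : a * a' * n + a' * b = a' * (a * n + b) := by ring
    have e2 : a * a' * n + a' * b + (a * b' - a' * b) = a * (a' * n + b') := by
      rw [add_assoc, Nat.add_sub_cancel' hlt.le]
      ring
    rw [e2, e1, lam_mul (by omega) (by omega), lam_mul (by omega) (by omega)]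
    push_cast
    ring
  rw [sum_congr rfl fun n _ => h3 n, ← mul_sum, abs_mul, abs_mul, lamr, lamr, one_mul, one_mul] at h2
  exact h2

/-- one integer form -/
theorem form {F : Set ℕ} (hF : Exc F) (a b : ℕ) (ha : 1 ≤ a) (hb : 1 ≤ b) (ε : ℝ) (hε : 0 < ε) :
    ∃ N₀ : ℕ, ∀ N : ℕ, N₀ ≤ N → N ∉ F → |∑ n ∈ range N, (lam (a * n + b) : ℝ)| ≤ ε * N := by
  obtain ⟨H, hH⟩ := exists_nat_gt (8 / ε ^ 2)
  have hH0 : (0 : ℝ) < H := lt_trans (by positivity) hH
  have hHn : 1 ≤ H := by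
    have : (0 : ℝ) < (H : ℝ) := hH0
    exact_mod_cast this
  have h1 : ∀ p : ℕ × ℕ, ∃ N₀ : ℕ, ∀ N : ℕ, N₀ ≤ N → N ∉ F → p.1 ≠ p.2 →
      |∑ n ∈ range N, (lam (a * (n + p.1) + b) : ℝ) * lam (a * (n + p.2) + b)| ≤ ε ^ 2 / 8 * N := by
    rintro ⟨i, j⟩
    by_cases hij : i = j
    · exact ⟨0, fun N _ _ h => absurd hij h⟩
    · obtain ⟨N₀, h2⟩ := forms hF a (a * i + b) a (a * j + b) ha ha (by omega) (by omega) (by
        intro h
        have h3 := Nat.eq_of_mul_eq_mul_left (by omega : 0 < a) h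
        have h4 : a * j = a * i := by omega
        exact hij (Nat.eq_of_mul_eq_mul_left (by omega : 0 < a) h4).symm) (ε ^ 2 / 8) (by positivity)
      refine ⟨N₀, fun N hN hNF _ => ?_⟩
      have h3 := h2 N hN hNF
      have h4 : ∀ n : ℕ, (lam (a * (n + i) + b) : ℝ) * lam (a * (n + j) + b) =
          lam (a * n + (a * i + b)) * lam (a * n + (a * j + b)) := by
        intro n
        rw [show a * (n + i) + b = a * n + (a * i + b) by ring, show a * (n + j) + b = a * n + (a * j + b) by ring]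
      rw [sum_congr rfl fun n _ => h4 n]
      exact h3
  choose M hM using h1
  obtain ⟨N₁, hN₁⟩ := exists_nat_gt (4 * (H : ℝ) / ε)
  refine ⟨∑ p ∈ range H ×ˢ range H, M p + N₁ + 1, fun N hN hNF => ?_⟩
  have hMp : ∀ i ∈ range H, ∀ j ∈ range H, M (i, j) ≤ N := by
    intro i hi j hj
    have := single_le_sum (f := M) (fun _ _ => Nat.zero_le _) (mem_product.2 ⟨hi, hj⟩ : (i, j) ∈ range H ×ˢ range H)
    omega
  have hN0 : (0 : ℝ) < N := by exact_mod_cast (by omega : 0 < N)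
  set f : ℕ → ℝ := fun n => (lam (a * n + b) : ℝ) with hf
  have hf1 : ∀ n, |f n| = 1 := fun n => lamr _
  -- the mean square of the windows
  have h2 : ∑ n ∈ range N, (∑ i ∈ range H, f (n + i)) ^ 2 ≤ H * N + (H : ℝ) ^ 2 * (ε ^ 2 / 8 * N) := by
    have e1 : ∀ n, (∑ i ∈ range H, f (n + i)) ^ 2 = ∑ i ∈ range H, ∑ j ∈ range H, f (n + i) * f (n + j) := by
      intro n
      rw [sq, sum_mul_sum]
    rw [sum_congr rfl fun n _ => e1 n, sum_comm]
    have e2 : ∀ i ∈ range H, ∑ n ∈ range N, ∑ j ∈ range H, f (n + i) * f (n + j) ≤ N + H * (ε ^ 2 / 8 * N) := by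
      intro i hi
      rw [sum_comm]
      have e3 : ∀ j ∈ range H, ∑ n ∈ range N, f (n + i) * f (n + j) ≤ (if i = j then (N : ℝ) else 0) + ε ^ 2 / 8 * N := by
        intro j hj
        by_cases hij : i = j
        · subst hij
          rw [if_pos rfl]
          have e4 : ∀ n, f (n + i) * f (n + i) = 1 := fun n => lamr_sq _
          rw [sum_congr rfl fun n _ => e4 n]
          simp
          positivity
        · rw [if_neg hij, zero_add]
          exact (le_abs_self _).trans (hM (i, j) N (hMp i hi j hj) hNF hij)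
      refine (sum_le_sum e3).trans (le_of_eq ?_)
      rw [sum_add_distrib, sum_ite_eq, if_pos hi, sum_const, card_range, nsmul_eq_mul]
    refine (sum_le_sum e2).trans (le_of_eq ?_)
    rw [sum_const, card_range, nsmul_eq_mul]
    ring
  -- the sum is nearly the mean of the windows
  have h3 : ∀ i ∈ range H, |∑ n ∈ range N, f n - ∑ n ∈ range N, f (n + i)| ≤ 2 * H := by
    intro i hi
    rw [mem_range] at hi
    have e1 : ∑ n ∈ range (N + i), f n = ∑ n ∈ range N, f n + ∑ j ∈ range i, f (N + j) := sum_range_add _ _ _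
    have e2 : ∑ n ∈ range (i + N), f n = ∑ n ∈ range i, f n + ∑ j ∈ range N, f (i + j) := sum_range_add _ _ _
    rw [add_comm i N, e1] at e2
    have e3 : ∑ n ∈ range N, f (n + i) = ∑ j ∈ range N, f (i + j) := sum_congr rfl fun n _ => by rw [add_comm]
    have e4 : |∑ j ∈ range i, f (N + j)| ≤ i := by
      refine (abs_sum_le_sum_abs _ _).trans ((sum_le_sum fun j _ => (hf1 (N + j)).le).trans (le_of_eq (by simp)))
    have e5 : |∑ j ∈ range i, f j| ≤ i := by
      refine (abs_sum_le_sum_abs _ _).trans ((sum_le_sum fun j _ => (hf1 j).le).trans (le_of_eq (by simp)))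
    have e6 : ∑ n ∈ range N, f n - ∑ n ∈ range N, f (n + i) = ∑ n ∈ range i, f n - ∑ j ∈ range i, f (N + j) := by
      rw [e3]; linarith
    rw [e6]
    have e7 := abs_sub (∑ n ∈ range i, f n) (∑ j ∈ range i, f (N + j))
    have e8 : (i : ℝ) ≤ H := by exact_mod_cast hi.le
    linarith
  have h4 : (H : ℝ) * |∑ n ∈ range N, f n| ≤ |∑ n ∈ range N, ∑ i ∈ range H, f (n + i)| + 2 * (H : ℝ) ^ 2 := by
    have e1 : (H : ℝ) * ∑ n ∈ range N, f n = ∑ n ∈ range N, ∑ i ∈ range H, f (n + i) +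
        ∑ i ∈ range H, (∑ n ∈ range N, f n - ∑ n ∈ range N, f (n + i)) := by
      rw [sum_sub_distrib, sum_const, card_range, nsmul_eq_mul, sum_comm]
      ring
    have e2 : |∑ i ∈ range H, (∑ n ∈ range N, f n - ∑ n ∈ range N, f (n + i))| ≤ H * (2 * H) := by
      refine (abs_sum_le_sum_abs _ _).trans ((sum_le_sum h3).trans (le_of_eq ?_))
      rw [sum_const, card_range, nsmul_eq_mul]
    have e3 := abs_add_le (∑ n ∈ range N, ∑ i ∈ range H, f (n + i))
      (∑ i ∈ range H, (∑ n ∈ range N, f n - ∑ n ∈ range N, f (n + i)))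
    rw [← e1, abs_mul, abs_of_pos hH0] at e3
    nlinarith
  have h5 : (∑ n ∈ range N, ∑ i ∈ range H, f (n + i)) ^ 2 ≤ N * (H * N + (H : ℝ) ^ 2 * (ε ^ 2 / 8 * N)) := by
    have e1 := sq_sum_le_card_mul_sum_sq (s := range N) (f := fun n => ∑ i ∈ range H, f (n + i))
    rw [card_range] at e1
    exact e1.trans (mul_le_mul_of_nonneg_left h2 hN0.le)
  have h6 : (N : ℝ) * (H * N + (H : ℝ) ^ 2 * (ε ^ 2 / 8 * N)) ≤ (ε / 2 * H * N) ^ 2 := by
    have e1 : (H : ℝ) ≤ ε ^ 2 / 8 * (H : ℝ) ^ 2 := by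
      rw [div_lt_iff₀ (by positivity)] at hH
      have : (8 : ℝ) * H ≤ H * ε ^ 2 * H := by nlinarith
      nlinarith
    have e2 : (ε / 2 * H * N) ^ 2 = (N : ℝ) * (ε ^ 2 / 8 * (H : ℝ) ^ 2 * N + (H : ℝ) ^ 2 * (ε ^ 2 / 8 * N)) := by ring
    rw [e2]
    apply mul_le_mul_of_nonneg_left _ hN0.le
    have := mul_le_mul_of_nonneg_right e1 hN0.le
    linarith
  have h7 : |∑ n ∈ range N, ∑ i ∈ range H, f (n + i)| ≤ ε / 2 * H * N :=
    abs_le_of_sq_le_sq (h5.trans h6) (by positivity)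
  have h8 : (N₁ : ℝ) ≤ N := by exact_mod_cast (by omega : N₁ ≤ N)
  rw [div_lt_iff₀ hε] at hN₁
  have h9 : 2 * (H : ℝ) ≤ ε / 2 * N := by nlinarith
  have h10 : (H : ℝ) * |∑ n ∈ range N, f n| ≤ H * (ε * N) := by
    have : 2 * (H : ℝ) ^ 2 ≤ H * (ε / 2 * N) := by
      have := mul_le_mul_of_nonneg_left h9 hH0.le
      linarith
    linarith
  exact le_of_mul_le_mul_left h10 hH0

end Pool.Agent.U488.CW
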