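import Pool.Agent.U488.CW.Coins
import Pool.Agent.U488.CW.Pair
import Pool.Agent.U847.NL

/-!
Library U488.CW (helper488), part 3: windows at integer forms and Beatty coins at almost all scales, with one exceptional
set.
-/

set_option autoImplicit false

namespace Pool.Agent.U488.CW

open Finset Filter
open Pool.Agent.Y958.U (LZ)
open Pool.Agent.Y842.EL (LZ_mono LZ_union LZ_diag' LZ_eps one_set)
open Pool.Agent.H376R2.MR (lam)
open Pool.Agent.Y304.U (sE)

/-- Markov's inequality -/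
lemma markov (D : ℕ → ℝ) (hD : ∀ ε : ℝ, 0 < ε → ∃ X₀ : ℕ, ∀ X : ℕ, X₀ ≤ X →
    ∑ N ∈ Icc 1 X, (1 / (N : ℝ)) * |D N| ≤ ε * Real.log X) (δ : ℝ) (hδ : 0 < δ) : LZ {N | δ < |D N|} := by
  classical
  rw [LZ_eps]
  intro ε hε
  obtain ⟨X₀, h1⟩ := hD (ε * δ) (by positivity)
  refine ⟨X₀, fun X hX => ?_⟩
  have h2 := h1 X hX
  have h3 : δ * sE {N | δ < |D N|} X ≤ ∑ N ∈ Icc 1 X, (1 / (N : ℝ)) * |D N| := by
    unfold sE
    rw [mul_sum]
    refine sum_le_sum fun N _ => ?_
    unfold Pool.Agent.Y304.U.ind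
    have hN : (0 : ℝ) ≤ 1 / (N : ℝ) := by positivity
    by_cases h : N ∈ {N | δ < |D N|}
    · rw [if_pos h]
      rw [Set.mem_ofPred_eq] at h
      calc δ * (1 / (N : ℝ)) = 1 / (N : ℝ) * δ := by ring
        _ ≤ 1 / (N : ℝ) * |D N| := mul_le_mul_of_nonneg_left h.le hN
    · rw [if_neg h]
      simp only [zero_div, mul_zero]
      positivity
  have h4 : δ * sE {N | δ < |D N|} X ≤ δ * (ε * Real.log X) := by
    calc _ ≤ ε * δ * Real.log X := h3.trans h2
      _ = δ * (ε * Real.log X) := by ring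
  exact le_of_mul_le_mul_left h4 hδ

lemma point_int (a b n : ℕ) : point (a : ℝ) (b : ℝ) n = a * n + b := by
  unfold point
  rw [show (a : ℝ) * (n : ℝ) + (b : ℝ) = ((a * n + b : ℕ) : ℝ) by push_cast; ring, Nat.floor_natCast]

/-- the coins event -/
def Coins {r : ℕ} (α β : Fin r → ℝ) (e : Fin r → ℤˣ) (n : ℕ) : Prop := ∀ i, liouville (point (α i) (β i) n) = e i

/-- the values in the integer windows -/
def pat {s : ℕ} (a b : Fin s → ℕ) (n : ℕ) : Fin s → ℤˣ := fun j => liouville (a j * n + b j)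

/-- the linear independence of the slopes -/
def Indep {r : ℕ} (α : Fin r → ℝ) : Prop := ∀ i, α i ∉ Submodule.span ℚ (insert (1 : ℝ) (α '' {i}ᶜ))

/-- one exceptional set for all the windows at integer forms -/
theorem one_exc {r : ℕ} (α β : Fin r → ℝ) (hα : ∀ i, 0 < α i) (hind : Indep α) :
    ∃ E : Set ℕ, LZ E ∧ ∀ (s : ℕ) (a b : Fin s → ℕ), (∀ j, 1 ≤ a j) → ∀ (e : Fin r → ℤˣ) (c : Fin s → ℤˣ) (ε : ℝ),
      0 < ε → ∃ N₀ : ℕ, ∀ N : ℕ, N₀ ≤ N → N ∉ E →
        |frequency N (fun n => Coins α β e n ∧ pat a b n = c) - 1 / 2 ^ r * frequency N (fun n => pat a b n = c)| ≤ ε := by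
  let ι : Type := Σ s : ℕ, (Fin s → ℕ) × (Fin s → ℕ) × (Fin r → ℤˣ) × (Fin s → ℤˣ) × ℕ
  haveI : Encodable ι := Encodable.ofCountable ι
  let D : ι → ℕ → ℝ := fun t N =>
    frequency N (fun n => Coins α β t.2.2.2.1 n ∧ pat (fun j => t.2.1 j + 1) t.2.2.1 n = t.2.2.2.2.1) -
      1 / 2 ^ r * frequency N (fun n => pat (fun j => t.2.1 j + 1) t.2.2.1 n = t.2.2.2.2.1)
  have hD : ∀ t : ι, LZ {N | 1 / ((t.2.2.2.2.2 : ℝ) + 1) < |D t N|} := by
    intro t
    refine markov (D t) (fun ε hε => ?_) _ (by positivity)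
    obtain ⟨s, a, b, e, c, j⟩ := t
    obtain ⟨X₀, h1⟩ := coins_windows (r := r) (s := s) 1 α β (fun j => ((a j + 1 : ℕ) : ℝ)) (fun j => (b j : ℝ)) hα
      (fun j => by positivity) (fun j => by positivity) (fun i => Or.inl (fun h => hind i (by
        have hsub : insert (1 : ℝ) (others α (fun j => ((a j + 1 : ℕ) : ℝ)) i) ⊆
            (Submodule.span ℚ (insert (1 : ℝ) (α '' {i}ᶜ)) : Set ℝ) := by
          have h1 : (1 : ℝ) ∈ Submodule.span ℚ (insert (1 : ℝ) (α '' {i}ᶜ)) :=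
            Submodule.subset_span (Set.mem_insert _ _)
          intro x hx
          rcases hx with rfl | hx
          · exact h1
          · rcases hx with hx | ⟨j, rfl⟩
            · exact Submodule.subset_span (Set.mem_insert_of_mem _ hx)
            · have h2 := Submodule.smul_mem (Submodule.span ℚ (insert (1 : ℝ) (α '' {i}ᶜ))) ((a j + 1 : ℕ) : ℚ) h1
              rw [Rat.smul_def, mul_one] at h2
              have h3 : (((a j + 1 : ℕ) : ℚ) : ℝ) = ((a j + 1 : ℕ) : ℝ) := by norm_cast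
              rw [h3] at h2
              exact h2
        exact Submodule.span_le.2 hsub h))) ε hε
    refine ⟨X₀, fun X hX => ?_⟩
    have h2 := h1 X hX (fun _ => liouville) (fun _ => signMul_liouville) e (fun j _ => c j)
    refine le_trans (le_of_eq ?_) h2
    refine sum_congr rfl fun N _ => ?_
    have h3 : ∀ n, (∀ j : Fin s, ∀ k ∈ Icc 1 1, consecutive liouville k (point ((a j + 1 : ℕ) : ℝ) (b j : ℝ) n) = c j) ↔
        pat (fun j => a j + 1) b n = c := by
      intro n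
      rw [funext_iff]
      refine forall_congr' fun j => ?_
      rw [Icc_self]
      simp only [mem_singleton, forall_eq]
      unfold consecutive
      rw [prod_range_one, add_zero, point_int]
      rfl
    have h4 : (fun n => ∀ j : Fin s, ∀ k ∈ Icc 1 1, consecutive liouville k (point ((a j + 1 : ℕ) : ℝ) (b j : ℝ) n) = c j) =
        fun n => pat (fun j => a j + 1) b n = c := funext fun n => propext (h3 n)
    have h5 : (fun n => (∀ i, liouville (point (α i) (β i) n) = e i) ∧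
        ∀ j : Fin s, ∀ k ∈ Icc 1 1, consecutive liouville k (point ((a j + 1 : ℕ) : ℝ) (b j : ℝ) n) = c j) =
        fun n => Coins α β e n ∧ pat (fun j => a j + 1) b n = c := funext fun n => propext (and_congr Iff.rfl (h3 n))
    show 1 / (N : ℝ) * |frequency N (fun n => Coins α β e n ∧ pat (fun j => a j + 1) b n = c) -
      1 / 2 ^ r * frequency N (fun n => pat (fun j => a j + 1) b n = c)| = _
    rw [← h4, ← h5]
  obtain ⟨E, hE, h1⟩ := LZ_diag' (fun t : ι => {N | 1 / ((t.2.2.2.2.2 : ℝ) + 1) < |D t N|}) hD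
  refine ⟨E, hE, fun s a b ha e c ε hε => ?_⟩
  obtain ⟨j, hj⟩ := exists_nat_one_div_lt hε
  obtain ⟨N₀, h2⟩ := h1 ⟨s, fun i => a i - 1, b, e, c, j⟩
  refine ⟨N₀, fun N hN hNE => ?_⟩
  have h3 : ¬ (1 / ((j : ℝ) + 1) < |D ⟨s, fun i => a i - 1, b, e, c, j⟩ N|) := fun h => hNE (h2 N hN h)
  have h4 : (fun i => a i - 1 + 1) = a := funext fun i => Nat.sub_add_cancel (ha i)
  rw [not_lt] at h3
  have h5 : D ⟨s, fun i => a i - 1, b, e, c, j⟩ N = frequency N (fun n => Coins α β e n ∧ pat a b n = c) -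
      1 / 2 ^ r * frequency N (fun n => pat a b n = c) := by
    show frequency N (fun n => Coins α β e n ∧ pat (fun i => a i - 1 + 1) b n = c) -
      1 / 2 ^ r * frequency N (fun n => pat (fun i => a i - 1 + 1) b n = c) = _
    rw [h4]
  rw [h5] at h3
  exact h3.trans hj.le

end Pool.Agent.U488.CW
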